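import Mathlib
import Pool.Agent.helper45.LOCO.Final

/-!
# Subforcings of localization forcing generated by sequences with memory

Let `φ` be the generic slalom of localization forcing and let the sequence `ψ` be read from `φ` by
`ψ(j) = π (ψ|j) φ`, where `π (ψ|j) φ` depends only on the restriction of `φ` to the interval
`[pos (ψ|j), pos (ψ|(j + 1)))`; the functions `pos` and `π` are in the ground model. If a condition
forces that the subforcing generated by `ψ` adds a dominating real then it forces that this
subforcing adds a generic real for Hechler forcing.
-/

set_option autoImplicit false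

namespace Pool.Agent.Results.MP_2ea95c_lc.ObservableMemory

open Pool.Agent.helper45.LOC Pool.Agent.helper45.LOCO

theorem result (pos : List ℕ → ℕ) (π : List ℕ → (ℕ → Finset ℕ) → ℕ) (R : Reading pos π) (p0 : Loc)
    (h : Pool.Agent.helper45.LOCO.AddsDominating (Pool.Agent.helper45.LOCO.subf pos π) p0) : Pool.Agent.helper45.LOCO.AddsHechler (Pool.Agent.helper45.LOCO.subf pos π) p0 :=
  Pool.Agent.helper45.LOCO.main R h

end Pool.Agent.Results.MP_2ea95c_lc.ObservableMemory
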