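import Mathlib
import Pool.Agent.helper56.RT.Final

/-!
# Subforcings of localization forcing which contain a tame dominating real

Let `φ` be the generic slalom of localization forcing and let the complete subalgebra `A` of the
regular open algebra of localization forcing contain a name `d` for a real which the condition
`p0` forces to be dominating. Suppose that `d = π(φ)` for some `π` of the ground model which is
continuous on the space of all slaloms or, more generally, that there is a function `b` of the
ground model with `b(i) → ∞` such that below `p0` the values of `d` can be decided while capturing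
any given slalom `Φ` of the ground model with `|Φ(i)| ≤ b(i)`. Then `p0` forces that the subforcing
`A` adds a generic real for Hechler forcing.
-/

set_option autoImplicit false

namespace Pool.Agent.Results.MP_2ea95c_lc.TameDominating

open Filter
open Pool.Agent.helper45.LOC Pool.Agent.helper45.LOCO Pool.Agent.helper56.CI
open Pool.Agent.helper56.RT

theorem result (A : Set (Set Loc)) (hA : IsSub A) (p0 : Loc) (d : ℕ → ℕ → Set Loc)
    (hd : Pool.Agent.helper45.LOCO.IsReal A p0 d) (hdom : Dominating p0 d)
    (h : (∃ π : (ℕ → Finset ℕ) → ℕ → ℕ, Cont π ∧ d = psi π) ∨
      ∃ b : ℕ → ℕ, Tendsto b atTop atTop ∧ Robust b p0 d) :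
    Pool.Agent.helper45.LOCO.AddsHechler A p0 := by
  rcases h with ⟨π, hc, rfl⟩ | ⟨b, hb, hrob⟩
  · exact main_cont hA hc hd hdom
  · exact Pool.Agent.helper56.RT.main hA hd hdom hb hrob

end Pool.Agent.Results.MP_2ea95c_lc.TameDominating
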